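import Pool.Agent.W555.KS.Defs

/-!
# Project KS, part T2

From the consequences `StT1E`, `StT1O` of the cycle identity, independence over squares and
`StT2C` to the generic Lefschetz type theorem `StT2` in characteristic 2.
-/

set_option autoImplicit false

namespace Pool.Agent.W977.KS

open Finset MvPolynomial Pool.Agent.W555.KS

/-! ### independence of the products of entries of the generic matrix over squares -/

/-- the set of entries used by a function -/
def gr {m D n : ℕ} (e : Fin m → Fin D) (h : Fin m → Fin n) : Finset (Fin D × Fin n) :=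
  univ.image (fun i => (e i, h i))

lemma gr_inj {m D n : ℕ} (e : Fin m → Fin D) (he : Function.Injective e) :
    Function.Injective (gr (n := n) e) := by
  intro h h' hh
  funext i
  have hm : (e i, h i) ∈ gr e h' := by
    rw [← hh]
    exact mem_image_of_mem _ (mem_univ i)
  obtain ⟨j, -, hj⟩ := mem_image.1 hm
  have h1 : e j = e i := congrArg Prod.fst hj
  have h2 : h' j = h i := congrArg Prod.snd hj
  rw [← h2, he h1]

lemma indep (hind : StInd) {m D n : ℕ} (e : Fin m → Fin D) (he : Function.Injective e)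
    (F : Finset (Fin m → Fin n)) (c : (Fin m → Fin n) → Kf D n)
    (H : ∑ h ∈ F, (∏ i, gen D n (e i) (h i)) * c h ^ 2 = 0) : ∀ h ∈ F, c h = 0 := by
  intro h0 h0F
  have : Nonempty (Fin m → Fin n) := ⟨h0⟩
  have key := hind (Fin D × Fin n) (F.image (gr e)) (fun s => c (Function.invFun (gr e) s)) ?_
    (gr e h0) (mem_image_of_mem _ h0F)
  · simpa only [Function.leftInverse_invFun (gr_inj e he) h0] using key
  · rw [sum_image (fun x _ y _ hxy => gr_inj e he hxy), ← H]
    refine sum_congr rfl fun h _ => ?_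
    have h1 : Function.invFun (gr e) (gr e h) = h := Function.leftInverse_invFun (gr_inj e he) h
    have h2 : ∏ i ∈ gr e h, (X i : MvPolynomial (Fin D × Fin n) (ZMod 2))
        = ∏ i, X (e i, h i) := by
      rw [gr, prod_image]
      intro x _ y _ hxy
      exact he (congrArg Prod.fst hxy)
    simp only [h1]
    rw [h2, map_prod]
    rfl

/-! ### functions with prescribed fibres -/

lemma exists_fib {n m q : ℕ} (hm : m = 2 * q) (β : Fin n → ℕ) (hβ : ∑ v, β v = q) :
    ∃ h : Fin m → Fin n, ∀ v, fib h v = 2 * β v := by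
  have hs : ∑ v, 2 * β v = m := by rw [← mul_sum, hβ, hm]
  let E : (Σ v : Fin n, Fin (2 * β v)) ≃ Fin m := finSigmaFinEquiv.trans (finCongr hs)
  refine ⟨fun i => (E.symm i).1, fun v => ?_⟩
  have h1 : (univ.filter (fun i => (E.symm i).1 = v)).card
      = (univ.filter (fun p : (Σ v : Fin n, Fin (2 * β v)) => p.1 = v)).card := by
    refine card_bij (fun i _ => E.symm i) ?_ ?_ ?_
    · intro i hi
      simpa using hi
    · intro i _ j _ hij
      exact E.symm.injective hij
    · intro p hp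
      exact ⟨E p, by simpa using hp, by simp⟩
  unfold fib
  rw [h1]
  have h2 : (univ.filter (fun p : (Σ v : Fin n, Fin (2 * β v)) => p.1 = v))
      = (univ : Finset (Fin (2 * β v))).map (Function.Embedding.sigmaMk v) := by
    ext ⟨w, j⟩
    simp only [mem_filter, mem_univ, true_and, mem_map, Function.Embedding.sigmaMk_apply]
    constructor
    · rintro rfl
      exact ⟨j, rfl⟩
    · rintro ⟨a, ha⟩
      exact (congrArg Sigma.fst ha).symm
  rw [h2, card_map, card_univ, Fintype.card_fin]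

/-! ### homogeneous ideals -/

section Hom

variable {k : Type*} [Field k] {n : ℕ}

lemma hc_mul {g : MvPolynomial (Fin n) k} {t : ℕ} (hg : g.IsHomogeneous t)
    (f : MvPolynomial (Fin n) k) (j : ℕ) :
    homogeneousComponent (t + j) (g * f) = g * homogeneousComponent j f := by
  classical
  have h1 : g * f = ∑ i ∈ range (f.totalDegree + 1), g * homogeneousComponent i f := by
    rw [← mul_sum, sum_homogeneousComponent]
  have h2 : ∀ i ∈ range (f.totalDegree + 1),
      homogeneousComponent (t + j) (g * homogeneousComponent i f)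
        = if i = j then g * homogeneousComponent j f else 0 := by
    intro i _
    rw [homogeneousComponent_of_mem (m := t + j) (n := t + i)
      (by exact hg.mul (homogeneousComponent_isHomogeneous i f))]
    by_cases hij : i = j
    · subst hij
      simp
    · rw [if_neg hij, if_neg (by omega)]
  rw [h1, map_sum, sum_congr rfl h2, sum_ite_eq']
  split_ifs with h3
  · rfl
  · rw [homogeneousComponent_eq_zero j f (by simpa using h3), mul_zero]

/-- all homogeneous components of elements of the ideal are in the ideal -/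
def HomI (J : Ideal (MvPolynomial (Fin n) k)) : Prop :=
  ∀ p ∈ J, ∀ i, homogeneousComponent i p ∈ J

attribute [local instance] MvPolynomial.gradedAlgebra in
lemma homI_span (s : Set (MvPolynomial (Fin n) k)) (hs : ∀ x ∈ s, ∃ i, x.IsHomogeneous i) :
    HomI (Ideal.span s) := by
  intro p hp i
  have h1 : (Ideal.span s).IsHomogeneous (homogeneousSubmodule (Fin n) k) := by
    refine Ideal.homogeneous_span _ s ?_
    intro x hx
    obtain ⟨i, hi⟩ := hs x hx
    exact ⟨i, hi⟩
  exact homogeneousComponent_mem_of_mem h1 hp i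

lemma lf_hom (c : Fin n → k) : (lf c).IsHomogeneous 1 := by
  unfold lf
  refine IsHomogeneous.sum _ _ _ fun v _ => ?_
  have h1 := (isHomogeneous_C (Fin n) (c v)).mul (isHomogeneous_X k v)
  simpa using h1

lemma homI_J (L : Finset (Finset (Fin n))) {m : ℕ} (c : Fin m → Fin n → k) :
    HomI (srI k L ⊔ Ideal.span (Set.range (fun i => lf (c i)))) := by
  have h1 : srI k L ⊔ Ideal.span (Set.range (fun i => lf (c i)))
      = Ideal.span ({p | ∃ σ : Finset (Fin n), σ ∉ L ∧ p = ∏ v ∈ σ, X v} ∪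
          Set.range (fun i => lf (c i))) := by
    rw [Ideal.span_union]
    rfl
  rw [h1]
  refine homI_span _ ?_
  rintro x (⟨σ, -, rfl⟩ | ⟨i, rfl⟩)
  · refine ⟨∑ v ∈ σ, 1, ?_⟩
    exact IsHomogeneous.prod _ _ _ fun v _ => isHomogeneous_X k v
  · exact ⟨1, lf_hom _⟩

/-- divisibility by a homogeneous element modulo a homogeneous ideal, with homogeneous quotient -/
lemma exists_quot {J : Ideal (MvPolynomial (Fin n) k)} (hJ : HomI J)
    {w : MvPolynomial (Fin n) k} {t : ℕ} (hw : w.IsHomogeneous t) {p : MvPolynomial (Fin n) k}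
    {j : ℕ} (hp : p.IsHomogeneous (t + j)) (h : p ∈ J ⊔ Ideal.span {w}) :
    ∃ y : MvPolynomial (Fin n) k, y.IsHomogeneous j ∧ p - w * y ∈ J := by
  obtain ⟨a, ha, b, hb, hab⟩ := Submodule.mem_sup.1 h
  obtain ⟨f, rfl⟩ := Ideal.mem_span_singleton'.1 hb
  refine ⟨homogeneousComponent j f, homogeneousComponent_isHomogeneous j f, ?_⟩
  have h1 : homogeneousComponent (t + j) p = p := homogeneousComponent_eq_self hp
  rw [← hab, map_add, mul_comm f w, hc_mul hw] at h1
  have h2 : p - w * homogeneousComponent j f = homogeneousComponent (t + j) a := by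
    rw [← hab]
    rw [mul_comm f w, ← h1]
    ring
  rw [h2]
  exact hJ a ha _

lemma mem_of_monomials {j : ℕ} (W : Submodule k (MvPolynomial (Fin n) k))
    (hW : ∀ β : Fin n →₀ ℕ, β.degree = j → monomial β 1 ∈ W)
    {p : MvPolynomial (Fin n) k} (hp : p.IsHomogeneous j) : p ∈ W := by
  rw [p.as_sum]
  refine W.sum_mem fun β hβ => ?_
  have h1 : monomial β (coeff β p) = coeff β p • (monomial β (1 : k)) := by
    rw [smul_monomial, smul_eq_mul, mul_one]
  rw [h1]
  refine W.smul_mem _ (hW β ?_)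
  have h2 := hp (mem_support_iff.1 hβ)
  rw [Finsupp.degree_eq_weight_one]
  exact h2

/-- elements congruent to `w ^ s * y` with `y` homogeneous of degree `q` -/
def quotSub (J : Ideal (MvPolynomial (Fin n) k)) (u : MvPolynomial (Fin n) k) (q : ℕ) :
    Submodule k (MvPolynomial (Fin n) k) where
  carrier := {p | ∃ y : MvPolynomial (Fin n) k, y.IsHomogeneous q ∧ p - u * y ∈ J}
  add_mem' := by
    rintro p p' ⟨y, hy, h⟩ ⟨y', hy', h'⟩
    refine ⟨y + y', hy.add hy', ?_⟩
    have h1 : p + p' - u * (y + y') = (p - u * y) + (p' - u * y') := by ring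
    rw [h1]
    exact J.add_mem h h'
  zero_mem' := ⟨0, isHomogeneous_zero _ _ _, by simp⟩
  smul_mem' := by
    rintro c p ⟨y, hy, h⟩
    refine ⟨c • y, ?_, ?_⟩
    · rw [smul_eq_C_mul]
      have h1 := (isHomogeneous_C (Fin n) c).mul hy
      simpa using h1
    · have h1 : c • p - u * (c • y) = C c * (p - u * y) := by
        rw [smul_eq_C_mul, smul_eq_C_mul]
        ring
      rw [h1]
      exact J.mul_mem_left _ h

lemma step {J : Ideal (MvPolynomial (Fin n) k)} (hJ : HomI J) {w : MvPolynomial (Fin n) k}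
    (hw : w.IsHomogeneous 1) {q : ℕ}
    (F1 : ∀ p : MvPolynomial (Fin n) k, p.IsHomogeneous (1 + q) → p ∈ J ⊔ Ideal.span {w}) :
    ∀ (s : ℕ) (p : MvPolynomial (Fin n) k), p.IsHomogeneous (q + s) →
      ∃ y : MvPolynomial (Fin n) k, y.IsHomogeneous q ∧ p - w ^ s * y ∈ J := by
  intro s
  induction s with
  | zero =>
    intro p hp
    exact ⟨p, hp, by simp⟩
  | succ s ih =>
    intro p hp
    refine mem_of_monomials (quotSub J (w ^ (s + 1)) q) ?_ hp
    intro β hβ
    have hne : β ≠ 0 := by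
      rintro rfl
      simp at hβ
    obtain ⟨v, hv⟩ := Finsupp.ne_iff.1 hne
    have hv1 : 1 ≤ β v := by
      simp only [Finsupp.coe_zero, Pi.zero_apply, ne_eq] at hv
      omega
    obtain ⟨γ, hγ⟩ : ∃ γ : Fin n →₀ ℕ, β = Finsupp.single v 1 + γ :=
      le_iff_exists_add.1 (Finsupp.single_le_iff.2 hv1)
    have hdeg : Finsupp.degree γ = q + s := by
      rw [hγ, map_add, Finsupp.degree_single] at hβ
      omega
    obtain ⟨y, hy, h1⟩ := ih (monomial γ 1) (isHomogeneous_monomial _ hdeg)
    obtain ⟨y', hy', h2⟩ := exists_quot hJ hw ((isHomogeneous_X k v).mul hy)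
      (F1 _ ((isHomogeneous_X k v).mul hy))
    refine ⟨y', hy', ?_⟩
    have h3 : monomial β (1 : k) = X v * monomial γ 1 := by
      rw [hγ, X, monomial_mul, one_mul]
    have h4 : monomial β (1 : k) - w ^ (s + 1) * y'
        = X v * (monomial γ 1 - w ^ s * y) + w ^ s * (X v * y - w * y') := by
      rw [h3]
      ring
    rw [h4]
    exact J.add_mem (J.mul_mem_left _ h1) (J.mul_mem_left _ h2)

lemma finish {J : Ideal (MvPolynomial (Fin n) k)} (hJ : HomI J) {w : MvPolynomial (Fin n) k}
    (hw : w.IsHomogeneous 1) {q : ℕ}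
    (F1 : ∀ p : MvPolynomial (Fin n) k, p.IsHomogeneous (1 + q) → p ∈ J ⊔ Ideal.span {w})
    (s e : ℕ)
    (F2 : ∀ β : Fin n →₀ ℕ, β.degree = q → w ^ s * monomial β 1 ∈ J ⊔ Ideal.span {w ^ e})
    (p : MvPolynomial (Fin n) k) (hp : p.IsHomogeneous (q + s)) :
    p ∈ J ⊔ Ideal.span {w ^ e} := by
  obtain ⟨y, hy, h1⟩ := step hJ hw F1 s p hp
  have h2 : w ^ s * y ∈ J ⊔ Ideal.span {w ^ e} := by
    have h3 := mem_of_monomials (Submodule.comap (LinearMap.mulLeft k (w ^ s))
      ((J ⊔ Ideal.span {w ^ e}).restrictScalars k)) ?_ hy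
    · exact h3
    · intro β hβ
      exact F2 β hβ
  have h3 : p = (p - w ^ s * y) + w ^ s * y := by ring
  rw [h3]
  exact Ideal.add_mem _ (Ideal.mem_sup_left h1) h2

end Hom

/-! ### the two applications of the cycle identities -/

/-- the ideal of the complex and of the first `d` generic forms -/
noncomputable abbrev Jd (n d : ℕ) (L : Finset (Finset (Fin n))) :
    Ideal (MvPolynomial (Fin n) (Kf (d + 1) n)) :=
  srI (Kf (d + 1) n) L ⊔
    Ideal.span (Set.range (fun i : Fin d => lf (gen (d + 1) n i.castSucc)))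

/-- the last generic form -/
noncomputable abbrev wl (n d : ℕ) : MvPolynomial (Fin n) (Kf (d + 1) n) :=
  lf (gen (d + 1) n (Fin.last d))

section Quot

variable {n d : ℕ} {L : Finset (Finset (Fin n))} (I : Ideal (MvPolynomial (Fin n) (Kf (d + 1) n)))

lemma mk_lf (c : Fin n → Kf (d + 1) n) :
    ∑ v, c v • Ideal.Quotient.mk I (X v) = Ideal.Quotient.mk I (lf c) := by
  unfold lf
  rw [map_sum]
  refine sum_congr rfl fun v _ => ?_
  have h1 : c v • Ideal.Quotient.mk I (X v) = Ideal.Quotient.mk I (c v • X v) := rfl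
  rw [h1, smul_eq_C_mul]

lemma mk_mon {m : ℕ} (h : Fin m → Fin n) (β : Fin n →₀ ℕ) (hf : ∀ v, fib h v = 2 * β v) :
    halfMon (fun v => Ideal.Quotient.mk I (X v)) h = Ideal.Quotient.mk I (monomial β 1) := by
  unfold halfMon
  rw [monomial_eq, C_1, one_mul, Finsupp.prod_fintype _ _ (fun i => pow_zero _), map_prod]
  refine prod_congr rfl fun v _ => ?_
  rw [hf, map_pow]
  congr 1
  omega

lemma rel_L (hI : Jd n d L ≤ I) (σ : Finset (Fin n)) (hσ : σ ∉ L) :
    ∏ v ∈ σ, Ideal.Quotient.mk I (X v) = 0 := by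
  rw [← map_prod, Ideal.Quotient.eq_zero_iff_mem]
  exact hI (Ideal.mem_sup_left (Ideal.subset_span ⟨σ, hσ, rfl⟩))

lemma rel_lf (hI : Jd n d L ≤ I) (i : Fin d) :
    ∑ v, gen (d + 1) n i.castSucc v • Ideal.Quotient.mk I (X v) = 0 := by
  rw [mk_lf, Ideal.Quotient.eq_zero_iff_mem]
  exact hI (Ideal.mem_sup_right (Ideal.subset_span ⟨i, rfl⟩))

end Quot

lemma charKf (m n : ℕ) : CharP (Kf m n) 2 := inferInstance

lemma pointE (h1e : StT1E) (hind : StInd) {n d q : ℕ} (s : ℕ) {L : Finset (Finset (Fin n))}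
    (hL : IsCx L) (hv : VK L (d + 1)) (hq : d + 1 = 2 * q) (β : Fin n →₀ ℕ)
    (hβ : β.degree = q) :
    wl n d ^ s * monomial β 1 ∈ Jd n d L ⊔ Ideal.span {wl n d ^ (2 * s + 1)} := by
  set I := Jd n d L ⊔ Ideal.span {wl n d ^ (2 * s + 1)} with hI
  have hJI : Jd n d L ≤ I := le_sup_left
  obtain ⟨h, hf⟩ := exists_fib (m := d + 1) hq (fun v => β v)
    (by rw [← hβ, Finsupp.degree_eq_sum])
  have hev : EvenFun h := fun v => by rw [hf]; exact even_two_mul _
  rw [← Ideal.Quotient.eq_zero_iff_mem, ← Module.forall_dual_apply_eq_zero_iff (Kf (d + 1) n)]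
  intro M
  have key := h1e (Kf (d + 1) n) (MvPolynomial (Fin n) (Kf (d + 1) n) ⧸ I) n d q s L
    (gen (d + 1) n) (fun v => Ideal.Quotient.mk I (X v)) M (Ideal.Quotient.mk I (wl n d)) hL hv
    (rel_L I hJI) (rel_lf I hJI) (mk_lf I _).symm hq
    (by
      rw [← map_pow, Ideal.Quotient.eq_zero_iff_mem]
      exact Ideal.mem_sup_right (Ideal.subset_span rfl))
  have h2 := indep hind (fun i : Fin (d + 1) => i) (fun _ _ h => h) _
    (fun h => M (Ideal.Quotient.mk I (wl n d) ^ s *
      halfMon (fun v => Ideal.Quotient.mk I (X v)) h)) key h (by simpa using hev)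
  rw [map_mul, map_pow, ← mk_mon I h β hf]
  exact h2

lemma pointO (h1o : StT1O) (hind : StInd) {n d q : ℕ} {s : ℕ} (hs : 1 ≤ s)
    {L : Finset (Finset (Fin n))}
    (hL : IsCx L) (hv : VK L (d + 1)) (hq : d = 2 * q) (β : Fin n →₀ ℕ)
    (hβ : β.degree = q) :
    wl n d ^ s * monomial β 1 ∈ Jd n d L ⊔ Ideal.span {wl n d ^ (2 * s)} := by
  set I := Jd n d L ⊔ Ideal.span {wl n d ^ (2 * s)} with hI
  have hJI : Jd n d L ≤ I := le_sup_left
  obtain ⟨h, hf⟩ := exists_fib (m := d) hq (fun v => β v)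
    (by rw [← hβ, Finsupp.degree_eq_sum])
  have hev : EvenFun h := fun v => by rw [hf]; exact even_two_mul _
  rw [← Ideal.Quotient.eq_zero_iff_mem, ← Module.forall_dual_apply_eq_zero_iff (Kf (d + 1) n)]
  intro M
  have key := h1o (Kf (d + 1) n) (MvPolynomial (Fin n) (Kf (d + 1) n) ⧸ I) n d q s L
    (gen (d + 1) n) (fun v => Ideal.Quotient.mk I (X v)) M (Ideal.Quotient.mk I (wl n d)) hL hv
    (rel_L I hJI) (rel_lf I hJI) (mk_lf I _).symm hq hs
    (by
      rw [← map_pow, Ideal.Quotient.eq_zero_iff_mem]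
      exact Ideal.mem_sup_right (Ideal.subset_span rfl))
  have h2 := indep hind (fun i : Fin d => i.castSucc) (Fin.castSucc_injective d) _
    (fun h => M (Ideal.Quotient.mk I (wl n d) ^ s *
      halfMon (fun v => Ideal.Quotient.mk I (X v)) h)) key h (by simpa using hev)
  rw [map_mul, map_pow, ← mk_mon I h β hf]
  exact h2

/-! ### the theorem -/

/-- KS-T2 -/
theorem t2 (hfan : StFan) (h1e : StT1E) (h1o : StT1O) (hind : StInd) (h2c : StT2C) : StT2 := by
  intro n d L hL hemb r hr p hp
  have hv : VK L (d + 1) := hfan n d L hL hemb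
  have hJ : HomI (Jd n d L) := homI_J L _
  have hw : (wl n d).IsHomogeneous 1 := lf_hom _
  change p ∈ Jd n d L ⊔ Ideal.span {wl n d ^ (2 * r - d)}
  obtain ⟨q, hq | hq⟩ : ∃ q, d = 2 * q ∨ d + 1 = 2 * q := by
    rcases Nat.even_or_odd' d with ⟨q, hq | hq⟩
    · exact ⟨q, Or.inl hq⟩
    · exact ⟨q + 1, Or.inr (by omega)⟩
  · -- `d = 2 q`
    subst hq
    obtain ⟨s, hs, rfl⟩ : ∃ s, 1 ≤ s ∧ r = q + s := ⟨r - q, by omega, by omega⟩
    have he : 2 * (q + s) - 2 * q = 2 * s := by omega
    rw [he]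
    refine finish hJ hw ?_ s (2 * s) (fun β hβ => pointO h1o hind hs hL hv rfl β hβ) p hp
    intro p' hp'
    have h1 := h2c n q L hL hemb p' (by rwa [add_comm 1 q] at hp')
    have h2 : Ideal.span (Set.range (fun i : Fin (2 * q + 1) => lf (gen (2 * q + 1) n i)))
        ≤ Ideal.span (Set.range (fun i : Fin (2 * q) => lf (gen (2 * q + 1) n i.castSucc)))
          ⊔ Ideal.span {wl n (2 * q)} := by
      rw [Ideal.span_le]
      rintro _ ⟨i, rfl⟩
      induction i using Fin.lastCases with
      | last => exact Ideal.mem_sup_right (Ideal.subset_span rfl)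
      | cast i => exact Ideal.mem_sup_left (Ideal.subset_span ⟨i, rfl⟩)
    have h3 := (sup_le_sup_left h2 (srI (Kf (2 * q + 1) n) L)) h1
    rwa [← sup_assoc] at h3
  · -- `d + 1 = 2 q`
    obtain ⟨s, rfl⟩ : ∃ s, r = q + s := ⟨r - q, by omega⟩
    have he : 2 * (q + s) - d = 2 * s + 1 := by omega
    rw [he]
    refine finish hJ hw ?_ s (2 * s + 1) (fun β hβ => pointE h1e hind s hL hv hq β hβ) p hp
    intro p' hp'
    refine mem_of_monomials ((Jd n d L ⊔ Ideal.span {wl n d}).restrictScalars _) ?_ hp'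
    intro β hβ
    have hne : β ≠ 0 := by
      rintro rfl
      rw [map_zero] at hβ
      omega
    obtain ⟨v, hv0⟩ := Finsupp.ne_iff.1 hne
    have hv1 : 1 ≤ β v := by
      simp only [Finsupp.coe_zero, Pi.zero_apply, ne_eq] at hv0
      omega
    obtain ⟨γ, hγ⟩ : ∃ γ : Fin n →₀ ℕ, β = Finsupp.single v 1 + γ :=
      le_iff_exists_add.1 (Finsupp.single_le_iff.2 hv1)
    have hdeg : Finsupp.degree γ = q := by
      rw [hγ, map_add, Finsupp.degree_single] at hβ
      omega
    have h3 : monomial β (1 : Kf (d + 1) n) = X v * monomial γ 1 := by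
      rw [hγ, X, monomial_mul, one_mul]
    have h4 := pointE h1e hind 0 hL hv hq γ hdeg
    simp only [pow_zero, one_mul, mul_zero, zero_add, pow_one] at h4
    rw [h3]
    exact Ideal.mul_mem_left _ _ h4

end Pool.Agent.W977.KS
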